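import Pool.Agent.L7h88.MW.Stm
import Pool.Agent.N798.H.PL2

set_option autoImplicit false

/-! # Project MW, part PL3: Plancherel for windows -/

namespace Pool.Agent.L7h45.MW

open Finset MeasureTheory Filter FourierTransform
open scoped ENNReal
open Pool.Agent.H376R2.MR (er)
open Pool.Agent.Y957.AD (four_shift memLp_of_bdd er_norm er_zero)
open Pool.Agent.Y957.VK (four_fsum four_smulc)
open Pool.Agent.N499.T (four_eq H_int)
open Pool.Agent.N798.HS (Ek Ek_le Ek_int Ek_lint Ek_four pt)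

/-- the Fourier side -/
noncomputable def Dp (s : Finset ℕ) (g : ℕ → ℂ) (s0 η : ℝ) : ℂ :=
  ∑ n ∈ s, g n * er η (s0 + Real.log n)

/-- Plancherel -/
theorem key (s : Finset ℕ) (g : ℕ → ℂ) (hg : ∀ n, ‖g n‖ ≤ 1) (s0 : ℝ) (F : ℝ → ℂ) (hF : Integrable F)
    (B : ℝ) (hB : ∀ y, ‖F y‖ ≤ B) :
    ∫⁻ u, ‖∑ n ∈ s, g n * F (u + (s0 + Real.log n))‖ₑ ^ 2 =
      ∫⁻ ξ, ‖Dp s g s0 (2 * Real.pi * ξ)‖ₑ ^ 2 * ‖𝓕 F ξ‖ₑ ^ 2 := by
  have hFi : Integrable (fun u => ∑ n ∈ s, g n * F (u + (s0 + Real.log n))) :=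
    integrable_finsetSum _ fun n _ => (hF.comp_add_right _).const_mul _
  have hFb : ∀ u, ‖∑ n ∈ s, g n * F (u + (s0 + Real.log n))‖ ≤ B * s.card := by
    intro u
    refine (norm_sum_le _ _).trans ?_
    calc ∑ n ∈ s, ‖g n * F (u + (s0 + Real.log n))‖ ≤ ∑ n ∈ s, B := by
          refine Finset.sum_le_sum fun n _ => ?_
          rw [norm_mul]
          calc _ ≤ 1 * B := mul_le_mul (hg n) (hB _) (norm_nonneg _) zero_le_one
            _ = B := one_mul _
      _ = B * s.card := by rw [Finset.sum_const, nsmul_eq_mul, mul_comm]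
  rw [← Pool.Agent.TH794.QD.plancherel _ hFi (memLp_of_bdd hFi hFb)]
  refine lintegral_congr fun ξ => ?_
  have h2 : 𝓕 (fun u => ∑ n ∈ s, g n * F (u + (s0 + Real.log n))) ξ =
      Dp s g s0 (2 * Real.pi * ξ) * 𝓕 F ξ := by
    unfold Dp
    rw [four_fsum _ _ fun n _ => (hF.comp_add_right _).const_mul _, Finset.sum_mul]
    refine Finset.sum_congr rfl fun n _ => ?_
    rw [four_smulc, four_shift]
    ring
  rw [h2, enorm_mul, mul_pow]

/-- the mean square with the comparison kernel -/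
theorem hE2 (s : Finset ℕ) (g : ℕ → ℂ) (hg : ∀ n, ‖g n‖ ≤ 1) (s0 M T : ℝ)
    (hs : ∀ n ∈ s, 1 ≤ n ∧ (n : ℝ) ≤ M) (hMT : M ≤ T) (hT : 1 ≤ T) :
    ∫⁻ u, ‖∑ n ∈ s, g n * Ek T (u + (s0 + Real.log n))‖ₑ ^ 2 ≤ ENNReal.ofReal (2 * (s.card * (1 / T))) := by
  have hpt : ∀ u, ‖∑ n ∈ s, g n * Ek T (u + (s0 + Real.log n))‖ₑ ^ 2 ≤
      2 * ∑ n ∈ s, ‖Ek T (u + (s0 + Real.log n))‖ₑ := by
    intro u
    have h1 : ‖∑ n ∈ s, g n * Ek T (u + (s0 + Real.log n))‖ ≤ ∑ n ∈ s, ‖Ek T (u + (s0 + Real.log n))‖ := by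
      refine (norm_sum_le _ _).trans (Finset.sum_le_sum fun n _ => ?_)
      rw [norm_mul]
      exact mul_le_of_le_one_left (norm_nonneg _) (hg n)
    have h2 : ∑ n ∈ s, ‖Ek T (u + (s0 + Real.log n))‖ ≤ 2 := by
      have := pt s M T hs hMT hT (u + s0)
      simpa only [add_assoc] using this
    have h3 : ‖∑ n ∈ s, g n * Ek T (u + (s0 + Real.log n))‖ ^ 2 ≤
        2 * ∑ n ∈ s, ‖Ek T (u + (s0 + Real.log n))‖ := by
      rw [pow_two]
      exact mul_le_mul (h1.trans h2) h1 (norm_nonneg _) (by norm_num)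
    have h4 : (∑ n ∈ s, ‖Ek T (u + (s0 + Real.log n))‖ₑ) = ENNReal.ofReal (∑ n ∈ s, ‖Ek T (u + (s0 + Real.log n))‖) := by
      rw [ENNReal.ofReal_sum_of_nonneg fun _ _ => norm_nonneg _]
      exact Finset.sum_congr rfl fun n _ => (ofReal_norm _).symm
    rw [← ofReal_norm, ← ENNReal.ofReal_pow (norm_nonneg _), h4,
      show (2 : ℝ≥0∞) = ENNReal.ofReal 2 by norm_num, ← ENNReal.ofReal_mul (by norm_num)]
    exact ENNReal.ofReal_le_ofReal h3
  refine (lintegral_mono hpt).trans ?_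
  have hm : Measurable (fun u => ‖Ek T u‖ₑ) := by
    have : Measurable (Ek T) := by
      unfold Ek
      exact (by fun_prop : Measurable fun x : ℝ => Complex.exp (-(T : ℂ) * x)).indicator measurableSet_Ioi
    exact this.enorm
  have hmn : ∀ n ∈ s, Measurable fun u => ‖Ek T (u + (s0 + Real.log n))‖ₑ := fun n _ =>
    hm.comp (measurable_add_const _)
  rw [lintegral_const_mul' _ _ (by norm_num : (2 : ℝ≥0∞) ≠ ⊤), lintegral_finsetSum _ hmn]
  have h5 : ∀ n ∈ s, ∫⁻ u, ‖Ek T (u + (s0 + Real.log n))‖ₑ = ENNReal.ofReal (1 / T) := by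
    intro n _
    rw [lintegral_add_right_eq_self (fun u => ‖Ek T u‖ₑ), Ek_lint hT]
  rw [Finset.sum_congr rfl h5, Finset.sum_const, nsmul_eq_mul, show (2 : ℝ≥0∞) = ENNReal.ofReal 2 by norm_num,
    ENNReal.ofReal_mul (by norm_num), ENNReal.ofReal_mul (Nat.cast_nonneg _), ENNReal.ofReal_natCast]

/-- change of variables, no measurability -/
theorem chg (G : ℝ → ℝ≥0∞) : ∫⁻ ξ, G (2 * Real.pi * ξ) = ENNReal.ofReal (1 / (2 * Real.pi)) * ∫⁻ η, G η := by
  have hp : (2 * Real.pi : ℝ) ≠ 0 := by positivity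
  have h1 := MeasureTheory.lintegral_map_equiv (μ := volume) G (Homeomorph.mulLeft₀ (2 * Real.pi) hp).toMeasurableEquiv
  have h2 : Measure.map (Homeomorph.mulLeft₀ (2 * Real.pi) hp).toMeasurableEquiv (volume : Measure ℝ) =
      ENNReal.ofReal |(2 * Real.pi)⁻¹| • volume := Real.map_volume_mul_left hp
  rw [h2, lintegral_smul_measure] at h1
  have h3 : |(2 * Real.pi : ℝ)⁻¹| = 1 / (2 * Real.pi) := by
    rw [abs_of_pos (by positivity), one_div]
  rw [h3] at h1
  exact h1.symm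

/-- the comparison integral in the variable `η` -/
theorem cmpE (s : Finset ℕ) (g : ℕ → ℂ) (hg : ∀ n, ‖g n‖ ≤ 1) (s0 M T : ℝ)
    (hs : ∀ n ∈ s, 1 ≤ n ∧ (n : ℝ) ≤ M) (hMT : M ≤ T) (hT : 1 ≤ T) :
    ENNReal.ofReal (1 / (2 * Real.pi)) * ∫⁻ η, ENNReal.ofReal (‖Dp s g s0 η‖ ^ 2 / (T ^ 2 + η ^ 2)) ≤
      ENNReal.ofReal (2 * (s.card * (1 / T))) := by
  have h1 := hE2 s g hg s0 M T hs hMT hT
  rw [key s g hg s0 (Ek T) (Ek_int hT) 1 (Ek_le hT)] at h1
  rw [← chg (fun η => ENNReal.ofReal (‖Dp s g s0 η‖ ^ 2 / (T ^ 2 + η ^ 2)))]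
  refine le_trans (le_of_eq (lintegral_congr fun ξ => ?_)) h1
  have e1 : ∀ z : ℂ, ‖z‖ₑ ^ 2 = ENNReal.ofReal (‖z‖ ^ 2) := fun z => by
    rw [← ofReal_norm, ENNReal.ofReal_pow (norm_nonneg _)]
  rw [e1, e1, ← ENNReal.ofReal_mul (by positivity), Ek_four hT]
  congr 1
  ring

/-- Gallagher's inequality -/
theorem gal (F F' : ℝ → ℂ) (hF : ∀ x, HasDerivAt F (F' x) x) (hF' : Continuous F') (a l : ℝ) (hl : 0 < l)
    (x : ℝ) (hx : x ∈ Set.Icc a (a + l)) :
    ‖F x‖ ^ 2 ≤ ∫ y in a..(a + l), (2 / l * ‖F y‖ ^ 2 + l * ‖F' y‖ ^ 2) := by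
  have hFc : Continuous F := continuous_iff_continuousAt.2 fun x => (hF x).continuousAt
  set φ : ℝ → ℝ := fun y => ‖F y‖ ^ 2 with hφ
  have hφd : ∀ y, HasDerivAt φ (2 * inner ℝ (F y) (F' y)) y := by
    intro y
    exact (hF y).norm_sq
  set ψ : ℝ → ℝ := fun y => 1 / l * ‖F y‖ ^ 2 + l * ‖F' y‖ ^ 2 with hψ
  have hψc : Continuous ψ := by fun_prop
  have hψ0 : ∀ y, 0 ≤ ψ y := fun y => by
    have : 0 < l := hl
    simp only [hψ]
    positivity
  have hdψ : ∀ y, |2 * inner ℝ (F y) (F' y)| ≤ ψ y := by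
    intro y
    have h1 : |inner ℝ (F y) (F' y)| ≤ ‖F y‖ * ‖F' y‖ := abs_real_inner_le_norm _ _
    have h2 : 2 * (‖F y‖ * ‖F' y‖) ≤ ψ y := by
      have h3 : 0 ≤ 1 / l * (‖F y‖ - l * ‖F' y‖) ^ 2 := by positivity
      have h4 : 1 / l * (‖F y‖ - l * ‖F' y‖) ^ 2 = ψ y - 2 * (‖F y‖ * ‖F' y‖) := by
        simp only [hψ]
        field_simp
        ring
      linarith
    rw [abs_mul, abs_two]
    linarith
  have hcd : Continuous fun y => 2 * inner ℝ (F y) (F' y) := by fun_prop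
  have hdiff : ∀ y ∈ Set.Icc a (a + l), φ x - φ y ≤ ∫ t in a..(a + l), ψ t := by
    intro y hy
    have h1 : ∫ t in y..x, 2 * inner ℝ (F t) (F' t) = φ x - φ y :=
      intervalIntegral.integral_eq_sub_of_hasDerivAt (fun t _ => hφd t) (hcd.intervalIntegrable _ _)
    have h2 : |∫ t in y..x, 2 * inner ℝ (F t) (F' t)| ≤ |∫ t in y..x, ψ t| := by
      have := intervalIntegral.norm_integral_le_abs_of_norm_le (f := fun t => 2 * inner ℝ (F t) (F' t))
        (g := ψ) (a := y) (b := x) (μ := volume) (Filter.Eventually.of_forall fun t => by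
          rw [Real.norm_eq_abs]; exact hdψ t) (hψc.intervalIntegrable _ _)
      simpa [Real.norm_eq_abs] using this
    have h3 : |∫ t in y..x, ψ t| ≤ ∫ t in a..(a + l), ψ t := by
      rcases le_total y x with h | h
      · rw [abs_of_nonneg (intervalIntegral.integral_nonneg h fun t _ => hψ0 t)]
        exact intervalIntegral.integral_mono_interval hy.1 h hx.2
          (Filter.Eventually.of_forall fun t => hψ0 t) (hψc.intervalIntegrable _ _)
      · rw [intervalIntegral.integral_symm, abs_neg,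
          abs_of_nonneg (intervalIntegral.integral_nonneg h fun t _ => hψ0 t)]
        exact intervalIntegral.integral_mono_interval hx.1 h hy.2
          (Filter.Eventually.of_forall fun t => hψ0 t) (hψc.intervalIntegrable _ _)
    rw [← h1]
    exact (le_abs_self _).trans (h2.trans h3)
  have hφc : Continuous φ := by fun_prop
  have h5 : ∫ y in a..(a + l), φ x ≤ ∫ y in a..(a + l), (φ y + ∫ t in a..(a + l), ψ t) := by
    refine intervalIntegral.integral_mono_on (by linarith) (by simp) ?_ fun y hy => ?_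
    · exact (hφc.add continuous_const).intervalIntegrable _ _
    · have := hdiff y hy
      linarith
  rw [intervalIntegral.integral_const, intervalIntegral.integral_add (hφc.intervalIntegrable _ _) (by simp),
    intervalIntegral.integral_const] at h5
  simp only [add_sub_cancel_left, smul_eq_mul] at h5
  have h6 : φ x ≤ 1 / l * (∫ y in a..(a + l), φ y) + ∫ t in a..(a + l), ψ t := by
    have h7 : l * φ x ≤ l * (1 / l * (∫ y in a..(a + l), φ y) + ∫ t in a..(a + l), ψ t) := by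
      rw [mul_add, ← mul_assoc, mul_one_div_cancel hl.ne', one_mul]
      exact h5
    exact le_of_mul_le_mul_left h7 hl
  refine h6.trans (le_of_eq ?_)
  rw [← intervalIntegral.integral_const_mul, ← intervalIntegral.integral_add
    ((hφc.const_mul _).intervalIntegrable _ _) (hψc.intervalIntegrable _ _)]
  refine intervalIntegral.integral_congr fun y _ => ?_
  simp only [hφ, hψ]
  ring

theorem er_deriv (x η : ℝ) : HasDerivAt (fun η => er η x) ((x : ℂ) * Complex.I * er η x) η := by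
  unfold er
  have h1 : HasDerivAt (fun η : ℝ => ((η * x : ℝ) : ℂ) * Complex.I) ((x : ℂ) * Complex.I) η := by
    have h2 : HasDerivAt (fun η : ℝ => η * x) x η := by
      simpa using (hasDerivAt_id η).mul_const x
    exact h2.ofReal_comp.mul_const Complex.I
  have h3 := h1.cexp
  rw [mul_comm] at h3
  exact h3

theorem Dp_deriv (s : Finset ℕ) (g : ℕ → ℂ) (s0 η : ℝ) :
    HasDerivAt (Dp s g s0) (∑ n ∈ s, g n * (((s0 + Real.log n : ℝ) : ℂ) * Complex.I * er η (s0 + Real.log n))) η := by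
  unfold Dp
  exact HasDerivAt.fun_sum fun n _ => (er_deriv _ _).const_mul _

theorem er_cont (x : ℝ) : Continuous fun η => er η x :=
  continuous_iff_continuousAt.2 fun η => (er_deriv x η).continuousAt

theorem Dp_cont (s : Finset ℕ) (g : ℕ → ℂ) (s0 : ℝ) : Continuous (Dp s g s0) :=
  continuous_iff_continuousAt.2 fun η => (Dp_deriv s g s0 η).continuousAt

theorem Dp_norm (s : Finset ℕ) (g : ℕ → ℂ) (s0 s1 η : ℝ) : ‖Dp s g s0 η‖ = ‖Dp s g s1 η‖ := by
  have h1 : Dp s g s0 η = er η (s0 - s1) * Dp s g s1 η := by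
    unfold Dp
    rw [Finset.mul_sum]
    refine Finset.sum_congr rfl fun n _ => ?_
    rw [show s0 + Real.log n = (s0 - s1) + (s1 + Real.log n) by ring, Pool.Agent.Y957.AD.er_add]
    ring
  rw [h1, norm_mul, er_norm, one_mul]

open Pool.Agent.L7h88.MW in
theorem s_PL3 : S_PL3 := by
  classical
  refine ⟨18, by norm_num, ?_⟩
  intro s M δ hM hδ hδ1 hs g hg H hHm hH Y R hR hHs T B hT hδT hB hloc s0
  have hM0 : 0 < M := by linarith
  have hT1 : 1 ≤ T := by linarith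
  have hT0 : 0 < T := by linarith
  have hi0 : 0 < 1 / δ := by positivity
  have hHi : Integrable H := H_int hHm hH hHs
  have hs' : ∀ n ∈ s, 1 ≤ n ∧ (n : ℝ) ≤ 2 * M := by
    intro n hn
    obtain ⟨h1, h2⟩ := hs n hn
    refine ⟨?_, by nlinarith⟩
    have : (1 : ℝ) ≤ n := hM.trans h1
    exact_mod_cast this
  have hw : ∀ n ∈ s, 0 ≤ -Real.log M + Real.log n ∧ -Real.log M + Real.log n ≤ δ := by
    intro n hn
    obtain ⟨h1, h2⟩ := hs n hn
    have hn0 : (0 : ℝ) < n := by linarith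
    refine ⟨by linarith [Real.log_le_log hM0 h1], ?_⟩
    have h3 := Real.log_le_log hn0 h2
    rw [Real.log_mul hM0.ne' (by linarith)] at h3
    have h4 := Real.log_le_sub_one_of_pos (show (0 : ℝ) < 1 + δ by linarith)
    linarith
  -- the second family of coefficients
  set g₂ : ℕ → ℂ := fun n => if n ∈ s then g n * (Complex.I * (((-Real.log M + Real.log n) / δ : ℝ) : ℂ)) else 0
    with hg₂d
  have hg₂ : ∀ n, ‖g₂ n‖ ≤ 1 := by
    intro n
    by_cases hn : n ∈ s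
    · simp only [hg₂d, if_pos hn]
      obtain ⟨h1, h2⟩ := hw n hn
      rw [norm_mul, norm_mul, Complex.norm_I, one_mul, Complex.norm_real, Real.norm_eq_abs,
        abs_of_nonneg (div_nonneg h1 hδ.le)]
      have h3 : (-Real.log M + Real.log n) / δ ≤ 1 := (div_le_one hδ).2 h2
      calc _ ≤ 1 * 1 := mul_le_mul (hg n) h3 (div_nonneg h1 hδ.le) zero_le_one
        _ = 1 := one_mul 1
    · simp only [hg₂d, if_neg hn, norm_zero]
      exact zero_le_one
  set F : ℝ → ℂ := Dp s g (-Real.log M) with hFd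
  set F₂ : ℝ → ℂ := Dp s g₂ (-Real.log M) with hF₂d
  have hFc : Continuous F := Dp_cont _ _ _
  have hF₂c : Continuous F₂ := Dp_cont _ _ _
  have hder : ∀ y, HasDerivAt F ((δ : ℂ) * F₂ y) y := by
    intro y
    have h1 := Dp_deriv s g (-Real.log M) y
    have h2 : ∑ n ∈ s, g n * (((-Real.log M + Real.log n : ℝ) : ℂ) * Complex.I * er y (-Real.log M + Real.log n)) =
        (δ : ℂ) * F₂ y := by
      rw [hF₂d, Dp, Finset.mul_sum]
      refine Finset.sum_congr rfl fun n hn => ?_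
      simp only [hg₂d, if_pos hn]
      have hδc : (δ : ℂ) ≠ 0 := by exact_mod_cast hδ.ne'
      rw [Complex.ofReal_div]
      field_simp
    rw [h2] at h1
    exact h1
  have hc' : Continuous fun y => (δ : ℂ) * F₂ y := by fun_prop
  set Θ : ℝ → ℝ := fun y => 3 * δ * B * ((2 * ‖F y‖ ^ 2 + ‖F₂ y‖ ^ 2) / (T ^ 2 + y ^ 2)) with hΘ
  have hden : ∀ y : ℝ, 0 < T ^ 2 + y ^ 2 := fun y => by positivity
  have hΘc : Continuous Θ := by
    have : Continuous fun y => (2 * ‖F y‖ ^ 2 + ‖F₂ y‖ ^ 2) / (T ^ 2 + y ^ 2) :=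
      Continuous.div (by fun_prop) (by fun_prop) fun y => (hden y).ne'
    exact this.const_mul _
  have hΘ0 : ∀ y, 0 ≤ Θ y := fun y => by
    have := hden y
    simp only [hΘ]
    positivity
  set G : ℝ → ℝ≥0∞ := fun η => ‖Dp s g s0 η‖ₑ ^ 2 * ‖∫ y, H y * er (-η) y‖ₑ ^ 2 with hG
  -- one interval
  have hint : ∀ x : ℝ, ∫⁻ η in Set.Ioc x (x + 1 / δ), G η ≤
      ∫⁻ η in Set.Ioc x (x + 1 / δ), ENNReal.ofReal (Θ η) := by
    intro x
    set S : ℝ := ∫ y in x..(x + 1 / δ), (2 / (1 / δ) * ‖F y‖ ^ 2 + 1 / δ * ‖(δ : ℂ) * F₂ y‖ ^ 2) with hS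
    have hS0 : 0 ≤ S := intervalIntegral.integral_nonneg (by linarith) fun y _ => by positivity
    have h1 : ∀ η ∈ Set.Ioc x (x + 1 / δ), ‖Dp s g s0 η‖ₑ ^ 2 ≤ ENNReal.ofReal S := by
      intro η hη
      have h2 := gal F _ hder hc' x (1 / δ) hi0 η ⟨hη.1.le, hη.2⟩
      rw [← ofReal_norm, ← ENNReal.ofReal_pow (norm_nonneg _), Dp_norm s g s0 (-Real.log M)]
      exact ENNReal.ofReal_le_ofReal h2
    calc ∫⁻ η in Set.Ioc x (x + 1 / δ), G η
        ≤ ∫⁻ η in Set.Ioc x (x + 1 / δ), ENNReal.ofReal S * ‖∫ y, H y * er (-η) y‖ₑ ^ 2 :=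
          setLIntegral_mono' measurableSet_Ioc fun η hη => mul_le_mul' (h1 η hη) le_rfl
      _ = ENNReal.ofReal S * ∫⁻ η in Set.Ioc x (x + 1 / δ), ‖∫ y, H y * er (-η) y‖ₑ ^ 2 :=
          lintegral_const_mul' _ _ ENNReal.ofReal_ne_top
      _ ≤ ENNReal.ofReal S * ENNReal.ofReal (B / (T ^ 2 + x ^ 2)) := by
          refine mul_le_mul' le_rfl (le_trans ?_ (hloc x))
          exact lintegral_mono_set Set.Ioc_subset_Icc_self
      _ = ENNReal.ofReal (B / (T ^ 2 + x ^ 2) * S) := by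
          rw [← ENNReal.ofReal_mul hS0, mul_comm]
      _ ≤ ENNReal.ofReal (∫ y in x..(x + 1 / δ), Θ y) := by
          apply ENNReal.ofReal_le_ofReal
          rw [hS, ← intervalIntegral.integral_const_mul]
          refine intervalIntegral.integral_mono_on (by linarith) ?_ (hΘc.intervalIntegrable _ _) fun y hy => ?_
          · refine Continuous.intervalIntegrable ?_ _ _
            fun_prop
          · have hy1 : (y - x) ^ 2 ≤ T ^ 2 := by
              have h5 : 0 ≤ y - x := by linarith [hy.1]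
              have h6 : y - x ≤ T := by linarith [hy.2]
              exact pow_le_pow_left₀ h5 h6 2
            have hcmp : T ^ 2 + y ^ 2 ≤ 3 * (T ^ 2 + x ^ 2) := by
              nlinarith [sq_nonneg (y - 2 * x)]
            have h7 : 1 / (T ^ 2 + x ^ 2) ≤ 3 / (T ^ 2 + y ^ 2) := by
              rw [div_le_div_iff₀ (hden x) (hden y)]
              linarith
            have h8 : 2 / (1 / δ) * ‖F y‖ ^ 2 + 1 / δ * ‖(δ : ℂ) * F₂ y‖ ^ 2 = δ * (2 * ‖F y‖ ^ 2 + ‖F₂ y‖ ^ 2) := by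
              rw [norm_mul, Complex.norm_real, Real.norm_eq_abs, abs_of_pos hδ]
              field_simp
            rw [h8]
            have h9 : 0 ≤ B * (δ * (2 * ‖F y‖ ^ 2 + ‖F₂ y‖ ^ 2)) := by positivity
            calc B / (T ^ 2 + x ^ 2) * (δ * (2 * ‖F y‖ ^ 2 + ‖F₂ y‖ ^ 2))
                = B * (δ * (2 * ‖F y‖ ^ 2 + ‖F₂ y‖ ^ 2)) * (1 / (T ^ 2 + x ^ 2)) := by ring
              _ ≤ B * (δ * (2 * ‖F y‖ ^ 2 + ‖F₂ y‖ ^ 2)) * (3 / (T ^ 2 + y ^ 2)) :=
                  mul_le_mul_of_nonneg_left h7 h9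
              _ = Θ y := by simp only [hΘ]; ring
      _ = ∫⁻ η in Set.Ioc x (x + 1 / δ), ENNReal.ofReal (Θ η) := by
          rw [intervalIntegral.integral_of_le (by linarith)]
          refine ofReal_integral_eq_lintegral_ofReal ?_ (Filter.Eventually.of_forall hΘ0)
          exact (intervalIntegrable_iff_integrableOn_Ioc_of_le (by linarith)).1 (hΘc.intervalIntegrable _ _)
  -- all intervals
  have hall : ∫⁻ η, G η ≤ ∫⁻ η, ENNReal.ofReal (Θ η) := by
    have hU : (⋃ n : ℤ, Set.Ioc ((0 : ℝ) + n • (1 / δ)) (0 + (n + 1) • (1 / δ))) = Set.univ :=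
      iUnion_Ioc_add_zsmul hi0 0
    have hdis : Pairwise (Function.onFun Disjoint fun n : ℤ => Set.Ioc ((0 : ℝ) + n • (1 / δ)) (0 + (n + 1) • (1 / δ))) :=
      Set.pairwise_disjoint_Ioc_add_zsmul 0 (1 / δ)
    have hdec : ∀ f : ℝ → ℝ≥0∞, ∫⁻ η, f η =
        ∑' n : ℤ, ∫⁻ η in Set.Ioc ((0 : ℝ) + n • (1 / δ)) (0 + (n + 1) • (1 / δ)), f η := by
      intro f
      rw [← lintegral_iUnion (fun _ => measurableSet_Ioc) hdis, hU, setLIntegral_univ]
    rw [hdec G, hdec fun η => ENNReal.ofReal (Θ η)]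
    refine ENNReal.tsum_le_tsum fun n => ?_
    have h1 := hint ((0 : ℝ) + n • (1 / δ))
    have h2 : (0 : ℝ) + (n + 1) • (1 / δ) = (0 : ℝ) + n • (1 / δ) + 1 / δ := by
      rw [add_smul, one_smul, add_assoc]
    rw [h2]
    exact h1
  -- the end
  have hp0 : (0 : ℝ) ≤ 1 / (2 * Real.pi) := by positivity
  have hstart : ∫⁻ u, ‖∑ n ∈ s, g n * H (u + (s0 + Real.log n))‖ₑ ^ 2 =
      ENNReal.ofReal (1 / (2 * Real.pi)) * ∫⁻ η, G η := by
    rw [key s g hg s0 H hHi 2 hH, ← chg G]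
    refine lintegral_congr fun ξ => ?_
    simp only [hG]
    rw [four_eq]
  have hb1 := cmpE s g hg (-Real.log M) (2 * M) T hs' hT hT1
  have hb2 := cmpE s g₂ hg₂ (-Real.log M) (2 * M) T hs' hT hT1
  have hsplit : ∫⁻ η, ENNReal.ofReal (Θ η) =
      ENNReal.ofReal (6 * δ * B) * (∫⁻ η, ENNReal.ofReal (‖F η‖ ^ 2 / (T ^ 2 + η ^ 2))) +
      ENNReal.ofReal (3 * δ * B) * (∫⁻ η, ENNReal.ofReal (‖F₂ η‖ ^ 2 / (T ^ 2 + η ^ 2))) := by
    rw [← lintegral_const_mul' _ _ ENNReal.ofReal_ne_top, ← lintegral_const_mul' _ _ ENNReal.ofReal_ne_top,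
      ← lintegral_add_left]
    · refine lintegral_congr fun η => ?_
      have hd := hden η
      rw [← ENNReal.ofReal_mul (by positivity), ← ENNReal.ofReal_mul (by positivity),
        ← ENNReal.ofReal_add (by positivity) (by positivity)]
      congr 1
      simp only [hΘ]
      ring
    · have : Measurable fun η => ‖F η‖ ^ 2 / (T ^ 2 + η ^ 2) := by
        refine Continuous.measurable (Continuous.div (by fun_prop) (by fun_prop) fun y => (hden y).ne')
      exact this.ennreal_ofReal.const_mul _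
  rw [hstart]
  refine (mul_le_mul' le_rfl hall).trans ?_
  rw [hsplit, mul_add]
  calc _ = ENNReal.ofReal (6 * δ * B) * (ENNReal.ofReal (1 / (2 * Real.pi)) *
          ∫⁻ η, ENNReal.ofReal (‖F η‖ ^ 2 / (T ^ 2 + η ^ 2))) +
        ENNReal.ofReal (3 * δ * B) * (ENNReal.ofReal (1 / (2 * Real.pi)) *
          ∫⁻ η, ENNReal.ofReal (‖F₂ η‖ ^ 2 / (T ^ 2 + η ^ 2))) := by ring
    _ ≤ ENNReal.ofReal (6 * δ * B) * ENNReal.ofReal (2 * (s.card * (1 / T))) +
        ENNReal.ofReal (3 * δ * B) * ENNReal.ofReal (2 * (s.card * (1 / T))) :=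
        add_le_add (mul_le_mul' le_rfl hb1) (mul_le_mul' le_rfl hb2)
    _ = _ := by
        have hc0 : (0 : ℝ) ≤ s.card := Nat.cast_nonneg _
        rw [← ENNReal.ofReal_mul (by positivity), ← ENNReal.ofReal_mul (by positivity),
          ← ENNReal.ofReal_add (by positivity) (by positivity)]
        congr 1
        ring

end Pool.Agent.L7h45.MW
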